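import Mathlib

namespace Pool.Agent.H.MP_3d878b_co
open Finset

lemma gad (N j : ℕ) : ∃ (I T Δ : Type) (_ : Fintype I) (_ : LinearOrder I) (_ : Fintype T)
    (_ : LinearOrder T) (_ : LinearOrder Δ) (π : T → Fin N → I) (D : T → Fin N → Δ),
    (∀ t, StrictMono (π t)) ∧ ∀ s : T → Fin N, ∃ e : Finset (T × Fin N), j < e.card ∧
      (∀ v ∈ e, v.2 = s v.1) ∧ ∃ i t d, ∀ v, v ∈ e ↔ π v.1 v.2 = i ∧ v.1 ≤ t ∧ D v.1 v.2 ≤ d := by
  classical
  induction j with
  | zero => exact ⟨Fin N, Unit, Unit, inferInstance, inferInstance, inferInstance, inferInstance,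
      inferInstance, fun _ w => w, fun _ _ => (), fun _ => strictMono_id, fun s =>
      ⟨{((), s ())}, by simp, by simp, s (), (), (), by simp [Prod.ext_iff]⟩⟩
  | succ j ih =>
    obtain ⟨I, T, Δ, _, _, _, _, _, π, D, h1, h2⟩ := ih
    obtain ⟨M, ⟨q⟩⟩ : ∃ M, Nonempty (Fin M ≃ (I → Fin N)) := ⟨_, ⟨(Fintype.equivFin _).symm⟩⟩
    refine ⟨I ×ₗ Fin N, I ⊕ₗ (Fin M ×ₗ T), WithBot ((Fin M)ᵒᵈ ×ₗ Δ), inferInstance, inferInstance,
      inferInstanceAs (Fintype (I ⊕ (Fin M × T))), inferInstance, inferInstance,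
      fun t w => Sum.elim (fun i => toLex (i, w)) (fun p => toLex (π (ofLex p).2 w,
        q (ofLex p).1 (π (ofLex p).2 w))) (ofLex t),
      fun t w => Sum.elim (fun _ => ⊥) (fun p => (toLex (OrderDual.toDual (ofLex p).1,
        D (ofLex p).2 w) : _ ×ₗ _)) (ofLex t), ?_, fun s => ?_⟩
    · rintro (i | p) a b h
      · exact Prod.Lex.toLex_lt_toLex.2 (Or.inr ⟨rfl, h⟩)
      · exact Prod.Lex.toLex_lt_toLex.2 (Or.inl (h1 _ h))
    obtain ⟨k, hk⟩ := q.surjective fun i => s (toLex (Sum.inl i))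
    obtain ⟨e, e1, e2, i, t, d, e3⟩ := h2 fun t => s (toLex (Sum.inr (toLex (k, t))))
    refine ⟨insert (toLex (Sum.inl i), q k i) (e.image fun v => (toLex (Sum.inr (toLex (k, v.1))), v.2)),
      ?_, ?_, toLex (i, q k i), toLex (Sum.inr (toLex (k, t))),
      (toLex (OrderDual.toDual k, d) : _ ×ₗ _), ?_⟩
    · rw [card_insert_of_notMem (by simp), card_image_of_injective _ fun a b h => by
        simpa [Prod.ext_iff] using h]
      omega
    · simp only [mem_insert, mem_image]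
      rintro _ (rfl | ⟨v, hv, rfl⟩)
      exacts [congrFun hk i, e2 v hv]
    rintro ⟨i' | p, w⟩
    · change (toLex (Sum.inl i'), w) ∈ _ ↔ toLex (i', w) = _ ∧ toLex (Sum.inl i') ≤ _ ∧ ⊥ ≤ _
      simp [Prod.ext_iff]
    obtain ⟨⟨k', t'⟩, rfl⟩ := toLex.surjective p
    change (toLex (Sum.inr (toLex (k', t'))), w) ∈ _ ↔ toLex (π t' w, q k' (π t' w)) = _ ∧
      toLex (Sum.inr (toLex (k', t'))) ≤ _ ∧
      WithBot.some (toLex (OrderDual.toDual k', D t' w)) ≤ _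
    simp only [mem_insert, mem_image, Prod.ext_iff, toLex_inj, Sum.inr.injEq, reduceCtorEq,
      false_and, false_or, e3, Sum.Lex.inr_le_inr_iff, WithBot.coe_le_coe, Prod.Lex.toLex_le_toLex,
      OrderDual.toDual_lt_toDual, OrderDual.toDual_inj]
    constructor
    · rintro ⟨⟨a, b⟩, ⟨rfl, h, h'⟩, ⟨rfl, rfl⟩, rfl⟩
      exact ⟨⟨rfl, rfl⟩, Or.inr ⟨rfl, h⟩, Or.inr ⟨rfl, h'⟩⟩
    · rintro ⟨⟨a, -⟩, b | ⟨rfl, b⟩, c | ⟨c, c'⟩⟩
      · exact absurd b (not_lt.2 c.le)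
      · exact absurd c b.ne
      · exact absurd c (lt_irrefl _)
      · exact ⟨(t', w), ⟨a, b, c'⟩, ⟨rfl, rfl⟩, rfl⟩

/-- `e` is cut out by a well separated window in `x` and an interval of the order -/
def Cut {V Y : Type} [Preorder Y] (x : V → ℝ) (y : V → Y) (K U : ℝ) (e : Finset V) : Prop :=
  ∃ z a, 0 ≤ z ∧ z ≤ U ∧ 0 < a ∧ a ≤ U ∧ (∀ p ∈ e, |x p - z| ≤ a) ∧
    ∀ v, |x v - z| ≤ K * a → ∀ p ∈ e, ∀ q ∈ e, y p ≤ y v → y v ≤ y q → v ∈ e

lemma plane (m c : ℕ) : ∃ N, ∀ K : ℝ, 1 ≤ K → ∃ (x : Fin N → ℝ) (U : ℝ), 0 < U ∧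
    (∀ w, 0 ≤ x w ∧ x w ≤ U) ∧ ∀ (χ : Fin N → ℕ) (S : Finset ℕ), S.card ≤ c → (∀ w, χ w ∈ S) →
      ∃ e : Finset (Fin N), m < e.card ∧ (∀ p ∈ e, ∀ q ∈ e, χ p = χ q) ∧ Cut x id K U e := by
  classical
  induction c with
  | zero => exact ⟨1, fun K _ => ⟨0, 1, one_pos, by simp, fun χ S h h' => by
      simpa [card_eq_zero.1 (Nat.le_zero.1 h)] using h' 0⟩⟩
  | succ c ih =>
    obtain ⟨N, ih⟩ := ih
    obtain ⟨I, T, Δ, _, _, _, _, _, π, D, h1, h2⟩ := gad N m
    refine ⟨Fintype.card (T × Fin N), fun K hK => ?_⟩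
    obtain ⟨x, U, u0, u1, ih⟩ := ih K hK
    let y : T × Fin N → I ×ₗ Δ := fun v => toLex (π v.1 v.2, D v.1 v.2)
    let g := (Fintype.equivFin (T × Fin N)).symm
    let σ := (Tuple.sort (y ∘ g)).trans g
    have hσ : Monotone (y ∘ σ) := Tuple.monotone_sort (y ∘ g)
    let n := (Fintype.orderIsoFinOfCardEq T rfl).symm
    obtain ⟨L, hL⟩ : ∃ L, L = 2 * K + 3 := ⟨_, rfl⟩
    have L1 : 1 ≤ L := by linarith
    have p1 : ∀ t, 1 ≤ L ^ (n t : ℕ) := fun t => one_le_pow₀ L1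
    have p2 : ∀ t t', t < t' → L ^ (n t : ℕ) * L ≤ L ^ (n t' : ℕ) := fun t t' h => by
      rw [← pow_succ]; exact pow_le_pow_right₀ L1 (n.strictMono h)
    have p3 : ∀ t, U * L ^ (n t : ℕ) ≤ U * L ^ Fintype.card T := fun t =>
      mul_le_mul_of_nonneg_left (pow_le_pow_right₀ L1 (n t).2.le) u0.le
    let x' : T × Fin N → ℝ := fun v => U * L ^ (n v.1 : ℕ) + x v.2
    have k0 : ∀ v, 0 ≤ x' v := fun v => add_nonneg (by positivity) (u1 _).1
    refine ⟨x' ∘ σ, U * L ^ Fintype.card T + U, by positivity,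
      fun w => ⟨k0 _, add_le_add (p3 _) (u1 _).2⟩, fun χ S hS hχ => ?_⟩
    suffices ∃ e : Finset (T × Fin N), m < e.card ∧ (∀ p ∈ e, ∀ q ∈ e, χ (σ.symm p) = χ (σ.symm q))
        ∧ Cut x' y K (U * L ^ Fintype.card T + U) e by
      obtain ⟨e, e1, e2, z, a, a1, a2, a3, a4, a5, a6⟩ := this
      refine ⟨e.map σ.symm.toEmbedding, by simpa, fun p hp q hq => ?_, z, a, a1, a2, a3, a4,
        fun p hp => a5 _ (by simpa using hp), fun v hv p hp q hq b1 b2 => ?_⟩
      · simpa using e2 (σ p) (by simpa using hp) (σ q) (by simpa using hq)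
      · simpa using a6 _ hv (σ p) (by simpa using hp) (σ q) (by simpa using hq) (hσ b1) (hσ b2)
    obtain ⟨α, hα⟩ : ∃ α, (S.erase α).card ≤ c := by
      rcases S.eq_empty_or_nonempty with rfl | ⟨α, h⟩
      exacts [⟨0, by simp⟩, ⟨α, by rw [card_erase_of_mem h]; omega⟩]
    by_cases h : ∀ t, ∃ w, χ (σ.symm (t, w)) = α
    · choose s hs using h
      obtain ⟨e, e1, e2, i, t, d, e3⟩ := h2 s
      have k : ∀ p ∈ e, χ (σ.symm p) = α := fun p hp => by rw [← hs p.1, ← e2 p hp]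
      refine ⟨e, e1, fun p hp q hq => (k p hp).trans (k q hq).symm, 0, U * L ^ (n t : ℕ) + U,
        le_rfl, by positivity, by positivity, add_le_add (p3 _) le_rfl, fun p hp => ?_,
        fun v hv p hp q hq b1 b2 => ?_⟩
      · rw [sub_zero, abs_of_nonneg (k0 p)]
        exact add_le_add (mul_le_mul_of_nonneg_left (pow_le_pow_right₀ L1
          (n.monotone ((e3 p).1 hp).2.1)) u0.le) (u1 _).2
      obtain ⟨c1, -, -⟩ := (e3 p).1 hp
      obtain ⟨c2, -, c3⟩ := (e3 q).1 hq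
      simp only [y, Prod.Lex.toLex_le_toLex, c1, c2] at b1 b2
      have c4 : π v.1 v.2 = i := le_antisymm (b2.elim le_of_lt fun h => h.1.le)
        (b1.elim le_of_lt fun h => h.1.le)
      refine (e3 v).2 ⟨c4, not_lt.1 fun hc => ?_, (b2.resolve_left c4.not_lt).2.trans c3⟩
      rw [sub_zero, abs_of_nonneg (k0 v)] at hv
      have := mul_le_mul_of_nonneg_left (p2 _ _ hc) u0.le
      have := mul_le_mul_of_nonneg_left (p1 t) u0.le
      have := (u1 v.2).1
      simp only [x'] at hv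
      subst hL
      nlinarith
    push Not at h
    obtain ⟨t, ht⟩ := h
    obtain ⟨e, e1, e2, z, a, a1, a2, a3, a4, a5, a6⟩ := ih (fun w => χ (σ.symm (t, w))) _ hα
      fun w => mem_erase.2 ⟨ht w, hχ _⟩
    refine ⟨e.image (Prod.mk t), by rwa [card_image_of_injective _ (Prod.mk_right_injective t)],
      ?_, U * L ^ (n t : ℕ) + z, a, by positivity, add_le_add (p3 _) a2, a3,
      a4.trans (le_add_of_nonneg_left (by positivity)), ?_, ?_⟩
    · simp only [forall_mem_image]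
      exact fun p hp q hq => e2 p hp q hq
    · simp only [forall_mem_image, x', add_sub_add_left_eq_sub]
      exact fun p hp => a5 p hp
    rintro ⟨t', w⟩ hv
    obtain rfl : t = t' := by
      by_contra hc
      have b := u1 w
      have := mul_le_mul_of_nonneg_left a4 (by linarith : 0 ≤ K)
      rw [abs_le] at hv
      simp only [x'] at hv
      rcases lt_or_gt_of_ne hc with h | h <;>
      · have := mul_le_mul_of_nonneg_left (p2 _ _ h) u0.le
        have := mul_le_mul_of_nonneg_left (p1 t) u0.le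
        have := mul_le_mul_of_nonneg_left (p1 t') u0.le
        subst hL
        nlinarith
    simp only [forall_mem_image, x', add_sub_add_left_eq_sub] at hv ⊢
    intro p hp q hq b1 b2
    simp only [y, Prod.Lex.toLex_le_toLex] at b1 b2
    exact mem_image_of_mem _ (a6 w hv p hp q hq ((h1 t).le_iff_le.1 (b1.elim le_of_lt fun h =>
      h.1.le)) ((h1 t).le_iff_le.1 (b2.elim le_of_lt fun h => h.1.le)))

end Pool.Agent.H.MP_3d878b_co
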